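import Pool.Agent.Helper867.Smale.OpenBad
import Pool.Agent.Helper867.Smale.BadGeneric
import Pool.Agent.Helper867.Smale.L_baireSpace_dyn

set_option autoImplicit false

/-!
Property (C) is not generic in the space of C^r diffeomorphisms of the 3-torus, for every
1 ≤ r ≤ ∞: in some nonempty open set the generic map does not have it.
-/

open Set Filter Topology

namespace Pool.Agent.Results.MP_62114c_an.AllSmoothness

open Pool.Agent.Helper867.Smale

theorem result (r : ℕ∞) (hr : 1 ≤ r) :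
    BaireSpace (Dyn r) ∧
      (∃ U : Set (Dyn r), IsOpen U ∧ U.Nonempty ∧
        ∃ R ∈ residual (Dyn r), ∀ f ∈ U ∩ R, ¬ PropC r f) ∧
      ¬ ∃ R ∈ residual (Dyn r), ∀ f ∈ R, PropC r f := by
  have hB : BaireSpace (Dyn r) := baireSpace_dyn r hr
  have hmain : ∃ U : Set (Dyn r), IsOpen U ∧ U.Nonempty ∧
      ∃ R ∈ residual (Dyn r), ∀ f ∈ U ∩ R, ¬ PropC r f := by
    rcases eq_or_lt_of_le hr with h | h
    · subst h
      exact bad_generic
    · have h2 : 2 ≤ r := by
        have h3 := Order.add_one_le_of_lt h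
        have h4 : (1 : ℕ∞) + 1 = 2 := by norm_num
        rwa [h4] at h3
      obtain ⟨U, hU, hne, hbad⟩ := open_bad r h2
      exact ⟨U, hU, hne, Set.univ, Filter.univ_mem, fun f hf => hbad f hf.1⟩
  refine ⟨hB, hmain, ?_⟩
  obtain ⟨U, hU, hne, R, hR, hbad⟩ := hmain
  rintro ⟨R', hR', hC⟩
  have hd : Dense (R ∩ R') := dense_of_mem_residual (Filter.inter_mem hR hR')
  obtain ⟨f, hfU, hfR, hfR'⟩ := hd.inter_open_nonempty U hU hne
  exact hbad f ⟨hfU, hfR⟩ (hC f hfR')

end Pool.Agent.Results.MP_62114c_an.AllSmoothness
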