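import Pool.Agent.Helper867.Smale.OpenBad
import Pool.Agent.Helper867.Smale.L_baireSpace_dyn

set_option autoImplicit false

/-!
Property (C) is not generic in the space of C^r diffeomorphisms of the 3-torus, for every
2 ≤ r ≤ ∞: a nonempty open set of diffeomorphisms consists of maps that do not have it.
-/

open Set Filter Topology

namespace Pool.Agent.Results.MP_62114c_an.NotGeneric

open Pool.Agent.Helper867.Smale

theorem result (r : ℕ∞) (hr : 2 ≤ r) :
    BaireSpace (Dyn r) ∧
      (∃ U : Set (Dyn r), IsOpen U ∧ U.Nonempty ∧ ∀ f ∈ U, ¬ PropC r f) ∧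
      ¬ ∃ R ∈ residual (Dyn r), ∀ f ∈ R, PropC r f := by
  have hB : BaireSpace (Dyn r) := baireSpace_dyn r (le_trans (by norm_num) hr)
  obtain ⟨U, hU, hne, hbad⟩ := open_bad r hr
  refine ⟨hB, ⟨U, hU, hne, hbad⟩, ?_⟩
  rintro ⟨R, hR, hC⟩
  have hd : Dense R := dense_of_mem_residual hR
  obtain ⟨f, hfU, hfR⟩ := hd.inter_open_nonempty U hU hne
  exact hbad f hfU (hC f hfR)

end Pool.Agent.Results.MP_62114c_an.NotGeneric
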